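import Mathlib

set_option autoImplicit false

namespace Pool.Agent.H73R3

open Complex ComplexConjugate

/-- The algebraic core: a bilinear map `ℝ^6 × ℝ^7 → ℝ^11` without zero divisors. -/
theorem alg_core (x0 x1 x2 y0 y1 y2 : ℂ) (t : ℝ) (hx : ¬ (x0 = 0 ∧ x1 = 0 ∧ x2 = 0))
    (h0 : x0 * y0 = t * (I * conj x1))
    (h1 : x0 * y1 + x1 * y0 = - (t * x2))
    (h2 : x1 * y1 + (conj x0 * y2 + x2 * conj y0) = 0)
    (h3 : conj x1 * y2 + x2 * conj y1 = t * conj x0)
    (h4 : x2 * y2 = 0)
    (h5 : t * x0.im = 0) : y0 = 0 ∧ y1 = 0 ∧ y2 = 0 ∧ t = 0 := by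
  by_cases hx2 : x2 = 0
  · subst hx2
    simp only [zero_mul, mul_zero, neg_zero, add_zero] at h1 h2 h3
    by_cases hx0 : x0 = 0
    · subst hx0
      have hx1 : x1 ≠ 0 := fun h => hx ⟨rfl, h, rfl⟩
      have hc : conj x1 ≠ 0 := by simpa using hx1
      simp only [zero_mul, map_zero, mul_zero, add_zero, zero_add] at h0 h1 h2 h3
      have ht : (t : ℂ) = 0 := by
        rcases mul_eq_zero.1 h0.symm with h | h
        · exact h
        · exact absurd h (mul_ne_zero I_ne_zero hc)
      refine ⟨?_, ?_, ?_, by exact_mod_cast ht⟩
      · rcases mul_eq_zero.1 h1 with h | h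
        · exact absurd h hx1
        · exact h
      · rcases mul_eq_zero.1 h2 with h | h
        · exact absurd h hx1
        · exact h
      · rcases mul_eq_zero.1 h3 with h | h
        · exact absurd h hc
        · exact h
    · -- x0 ≠ 0
      have key : (t : ℂ) * ((x0 * conj x0) ^ 2 - I * (x1 * conj x1) ^ 2) = 0 := by
        linear_combination (x0 ^ 2 * conj x1) * h2 - (x0 * x1 * conj x1) * h1
          + (x1 ^ 2 * conj x1) * h0 - (conj x0 * x0 ^ 2) * h3
      have hne : (x0 * conj x0) ^ 2 - I * (x1 * conj x1) ^ 2 ≠ 0 := by
        intro h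
        rw [mul_conj, mul_conj] at h
        have hre := congrArg Complex.re h
        have h' : (normSq x0) ^ 2 = 0 := by
          have e1 : ((((normSq x0 : ℝ) : ℂ)) ^ 2 - I * (((normSq x1 : ℝ) : ℂ)) ^ 2).re
              = (normSq x0) ^ 2 := by
            simp [sq, Complex.mul_re, Complex.mul_im]
          rw [e1] at hre
          simpa using hre
        have h'' : normSq x0 = 0 := by
          exact pow_eq_zero_iff (two_ne_zero) |>.1 h'
        exact hx0 (normSq_eq_zero.1 h'')
      have ht : (t : ℂ) = 0 := by
        rcases mul_eq_zero.1 key with h | h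
        · exact h
        · exact absurd h hne
      rw [ht] at h0 h3
      simp only [zero_mul] at h0 h3
      have hy0 : y0 = 0 := by
        rcases mul_eq_zero.1 h0 with h | h
        · exact absurd h hx0
        · exact h
      subst hy0
      have hy1 : y1 = 0 := by
        have : x0 * y1 = 0 := by simpa using h1
        rcases mul_eq_zero.1 this with h | h
        · exact absurd h hx0
        · exact h
      subst hy1
      have hy2 : y2 = 0 := by
        have : conj x0 * y2 = 0 := by simpa using h2
        rcases mul_eq_zero.1 this with h | h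
        · exact absurd h (by simpa using hx0)
        · exact h
      exact ⟨rfl, rfl, hy2, by exact_mod_cast ht⟩
  · -- x2 ≠ 0
    have hy2 : y2 = 0 := by
      rcases mul_eq_zero.1 h4 with h | h
      · exact absurd h hx2
      · exact h
    subst hy2
    simp only [mul_zero, zero_add] at h2 h3
    have hc2 : conj x2 ≠ 0 := by simpa using hx2
    -- conj of h3
    have h3' : conj x2 * y1 = t * x0 := by
      have := congrArg conj h3
      simpa using this
    have h2' : conj x1 * conj y1 + conj x2 * y0 = 0 := by
      have := congrArg conj h2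
      simpa using this
    have h3c : x2 * conj y1 = t * conj x0 := h3
    -- |x2|^2 y0 = - t conj x0 conj x1
    have e0 : (x2 * conj x2) * y0 = - (t * conj x0 * conj x1) := by
      linear_combination x2 * h2' - conj x1 * h3c
    have e1 : (t : ℂ) * conj x1 * (x0 * conj x0 + I * (x2 * conj x2)) = 0 := by
      linear_combination (-(x2 * conj x2)) * h0 + x0 * e0
    have hne : x0 * conj x0 + I * (x2 * conj x2) ≠ 0 := by
      intro h
      rw [mul_conj, mul_conj] at h
      have him := congrArg Complex.im h
      simp at him
      exact hx2 him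
    have e2 : (t : ℂ) * conj x1 = 0 := by
      rcases mul_eq_zero.1 e1 with h | h
      · exact h
      · exact absurd h hne
    have hy0 : y0 = 0 := by
      have : (x2 * conj x2) * y0 = 0 := by
        rw [e0]; linear_combination (-conj x0) * e2
      rcases mul_eq_zero.1 this with h | h
      · exact absurd h (mul_ne_zero hx2 hc2)
      · exact h
    subst hy0
    have ht : t = 0 := by
      by_contra ht
      have htc : (t : ℂ) ≠ 0 := by exact_mod_cast ht
      have him : x0.im = 0 := by
        rcases mul_eq_zero.1 h5 with h | h
        · exact absurd h ht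
        · exact h
      have e3 : (t : ℂ) * (x0 ^ 2 + x2 * conj x2) = 0 := by
        linear_combination conj x2 * h1 - x0 * h3'
      have e4 : x0 ^ 2 + x2 * conj x2 = 0 := by
        rcases mul_eq_zero.1 e3 with h | h
        · exact absurd h htc
        · exact h
      rw [mul_conj] at e4
      have hre := congrArg Complex.re e4
      have hr : x0.re ^ 2 + normSq x2 = 0 := by
        have : (x0 ^ 2).re = x0.re ^ 2 := by
          rw [sq, Complex.mul_re, him]; ring
        simpa [this] using hre
      have hp : 0 < normSq x2 := normSq_pos.2 hx2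
      nlinarith [sq_nonneg x0.re]
    have hy1 : y1 = 0 := by
      rw [ht] at h3'
      simp only [ofReal_zero, zero_mul] at h3'
      rcases mul_eq_zero.1 h3' with h | h
      · exact absurd h hc2
      · exact h
    exact ⟨rfl, hy1, rfl, ht⟩

end Pool.Agent.H73R3
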