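import Mathlib

set_option autoImplicit false

namespace Pool.Agent.H73R3

open Metric Set

section
variable {E F : Type*} [NormedAddCommGroup E] [NormedSpace ℝ E]
  [NormedAddCommGroup F] [NormedSpace ℝ F]

/-- total skewness of a map between normed spaces on a set, in terms of `fderiv`. -/
def TSOn (f : E → F) (U : Set E) : Prop :=
  ∀ x ∈ U, ∀ y ∈ U, x ≠ y → ∀ (u v : E) (t : ℝ),
    fderiv ℝ f x u + fderiv ℝ f y v + t • (f y - f x) = 0 → u = 0 ∧ v = 0 ∧ t = 0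

/-- graph of a quadratic plus cubic map -/
noncomputable def germ (B : E →L[ℝ] E →L[ℝ] F) (Q : E →L[ℝ] E →L[ℝ] ℝ) (A : E →L[ℝ] F) :
    E → E × F := fun x => (x, B x x + (Q x x) • A x)

variable (B : E →L[ℝ] E →L[ℝ] F) (Q : E →L[ℝ] E →L[ℝ] ℝ) (A : E →L[ℝ] F)

theorem germ_contDiff : ContDiff ℝ ((⊤ : ℕ∞) : WithTop ℕ∞) (germ B Q A) := by
  unfold germ
  fun_prop

theorem germ_fderiv (x u : E) :
    fderiv ℝ (germ B Q A) x u
      = (u, B x u + B u x + ((Q x u + Q u x) • A x + (Q x x) • A u)) := by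
  have hB : HasFDerivAt (fun x : E => B x x)
      (B.precompR E x (ContinuousLinearMap.id ℝ E) + B.precompL E (ContinuousLinearMap.id ℝ E) x)
      x := B.hasFDerivAt_of_bilinear (hasFDerivAt_id x) (hasFDerivAt_id x)
  have hQ : HasFDerivAt (fun x : E => Q x x)
      (Q.precompR E x (ContinuousLinearMap.id ℝ E) + Q.precompL E (ContinuousLinearMap.id ℝ E) x)
      x := Q.hasFDerivAt_of_bilinear (hasFDerivAt_id x) (hasFDerivAt_id x)
  have hG := (hasFDerivAt_id (𝕜 := ℝ) x).prodMk (hB.add (hQ.smul A.hasFDerivAt))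
  have : fderiv ℝ (germ B Q A) x = _ := hG.fderiv
  rw [this]
  simp
  abel

theorem germ_identity (hB : ∀ x y, B x y = B y x) (hQ : ∀ x y, Q x y = Q y x)
    (p s h : E) (t : ℝ) :
    (B (p - s) (-(t • s) - h) + B (-(t • s) - h) (p - s)
      + ((Q (p - s) (-(t • s) - h) + Q (-(t • s) - h) (p - s)) • A (p - s)
        + (Q (p - s) (p - s)) • A (-(t • s) - h)))
    + (B (p + s) (-(t • s) + h) + B (-(t • s) + h) (p + s)
      + ((Q (p + s) (-(t • s) + h) + Q (-(t • s) + h) (p + s)) • A (p + s)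
        + (Q (p + s) (p + s)) • A (-(t • s) + h)))
    + t • ((B (p + s) (p + s) + (Q (p + s) (p + s)) • A (p + s))
      - (B (p - s) (p - s) + (Q (p - s) (p - s)) • A (p - s)))
    = (4 : ℝ) • (B s h - (t * Q s s) • A s
        + ((Q p s) • A h + (Q s h) • A p + (Q p h) • A s)) := by
  simp only [map_add, map_sub, map_smul, map_neg, ContinuousLinearMap.add_apply,
    ContinuousLinearMap.sub_apply, ContinuousLinearMap.smul_apply, ContinuousLinearMap.neg_apply,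
    smul_eq_mul]
  rw [hB s p, hB h p, hB h s, hQ s p, hQ h p, hQ h s]
  module

end

section
variable {E F : Type*} [NormedAddCommGroup E] [NormedSpace ℝ E] [FiniteDimensional ℝ E]
  [NormedAddCommGroup F] [NormedSpace ℝ F]

theorem lower_bound (B : E →L[ℝ] E →L[ℝ] F) (A : E →L[ℝ] F)
    (hns : ∀ s h : E, ∀ t : ℝ, s ≠ 0 → B s h = t • A s → h = 0 ∧ t = 0) :
    ∃ m : ℝ, 0 < m ∧ ∀ (s h : E) (t : ℝ), m * (‖s‖ * ‖(h, t)‖) ≤ ‖B s h - t • A s‖ := by
  have : ProperSpace E := FiniteDimensional.proper_real E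
  have hK : IsCompact ((sphere (0 : E) 1) ×ˢ (sphere (0 : E × ℝ) 1)) :=
    (isCompact_sphere _ _).prod (isCompact_sphere _ _)
  by_cases hne : ((sphere (0 : E) 1) ×ˢ (sphere (0 : E × ℝ) 1)).Nonempty
  · have hcont : Continuous (fun w : E × (E × ℝ) => ‖B w.1 w.2.1 - w.2.2 • A w.1‖) := by
      fun_prop
    obtain ⟨w, hw, hmin⟩ := hK.exists_isMinOn hne hcont.continuousOn
    refine ⟨‖B w.1 w.2.1 - w.2.2 • A w.1‖, ?_, ?_⟩
    · rw [norm_pos_iff]
      intro h0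
      have hw1 : w.1 ≠ 0 := by
        intro h
        have := hw.1
        rw [h] at this
        simp at this
      have := hns w.1 w.2.1 w.2.2 hw1 (sub_eq_zero.1 h0)
      have hw2 := hw.2
      have : w.2 = 0 := Prod.ext this.1 this.2
      rw [this] at hw2
      simp at hw2
    · intro s h t
      by_cases hs : s = 0
      · subst hs; simp
      by_cases hht : (h, t) = (0 : E × ℝ)
      · rw [hht]; simp
      have hs' : ‖s‖ ≠ 0 := norm_ne_zero_iff.2 hs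
      have hht' : ‖(h, t)‖ ≠ 0 := norm_ne_zero_iff.2 hht
      have hmem : (‖s‖⁻¹ • s, ‖(h, t)‖⁻¹ • (h, t)) ∈
          ((sphere (0 : E) 1) ×ˢ (sphere (0 : E × ℝ) 1)) := by
        refine ⟨?_, ?_⟩
        · simp [norm_smul, hs']
        · rw [mem_sphere_zero_iff_norm]
          change ‖‖(h, t)‖⁻¹ • (h, t)‖ = 1
          rw [norm_smul, norm_inv, norm_norm]
          exact inv_mul_cancel₀ hht'
      have hm := hmin hmem
      simp only [mem_setOf_eq] at hm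
      have e : B (‖s‖⁻¹ • s) (‖(h, t)‖⁻¹ • (h, t)).1 - (‖(h, t)‖⁻¹ • (h, t)).2 • A (‖s‖⁻¹ • s)
          = (‖s‖⁻¹ * ‖(h, t)‖⁻¹) • (B s h - t • A s) := by
        simp only [Prod.smul_mk, map_smul, ContinuousLinearMap.smul_apply, smul_eq_mul]
        module
      change ‖B w.1 w.2.1 - w.2.2 • A w.1‖ ≤ ‖B (‖s‖⁻¹ • s) (‖(h, t)‖⁻¹ • (h, t)).1 - (‖(h, t)‖⁻¹ • (h, t)).2 • A (‖s‖⁻¹ • s)‖ at hm
      rw [e, norm_smul, norm_mul, norm_inv, norm_inv, norm_norm, norm_norm] at hm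
      have hpos : 0 < ‖s‖ * ‖(h, t)‖ := by positivity
      calc ‖B w.1 w.2.1 - w.2.2 • A w.1‖ * (‖s‖ * ‖(h, t)‖)
          ≤ (‖s‖⁻¹ * ‖(h, t)‖⁻¹ * ‖B s h - t • A s‖) * (‖s‖ * ‖(h, t)‖) :=
            mul_le_mul_of_nonneg_right hm hpos.le
        _ = ‖B s h - t • A s‖ := by
            field_simp
  · refine ⟨1, one_pos, ?_⟩
    intro s h t
    by_cases hs : s = 0
    · subst hs; simp
    exfalso
    apply hne
    have hs' : ‖s‖ ≠ 0 := norm_ne_zero_iff.2 hs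
    refine ⟨(‖s‖⁻¹ • s, (‖s‖⁻¹ • s, 0)), ?_, ?_⟩
    · simp [norm_smul, hs']
    · simp [norm_smul, hs', Prod.norm_def]

/-- Local existence of totally skew germs from a nonsingular pair `(B, A)`. -/
theorem exists_ball_TSOn (B : E →L[ℝ] E →L[ℝ] F) (Q : E →L[ℝ] E →L[ℝ] ℝ) (A : E →L[ℝ] F)
    (hB : ∀ x y, B x y = B y x) (hQ : ∀ x y, Q x y = Q y x)
    (hQpos : ∀ x, x ≠ 0 → Q x x ≠ 0)
    (hns : ∀ s h : E, ∀ t : ℝ, s ≠ 0 → B s h = t • A s → h = 0 ∧ t = 0) :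
    ∃ r : ℝ, 0 < r ∧ TSOn (germ B Q A) (ball 0 r) := by
  obtain ⟨m, hm, hbound⟩ := lower_bound B A hns
  set c : ℝ := 3 * ‖Q‖ * ‖A‖ + 1 with hc
  have hcpos : 0 < c := by positivity
  refine ⟨m / c, div_pos hm hcpos, ?_⟩
  intro x hx y hy hxy u v t heq
  rw [germ_fderiv, germ_fderiv] at heq
  simp only [germ] at heq
  set p : E := (1 / 2 : ℝ) • (x + y) with hp
  set s : E := (1 / 2 : ℝ) • (y - x) with hs
  have hxps : x = p - s := by rw [hp, hs]; module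
  have hyps : y = p + s := by rw [hp, hs]; module
  have hs0 : s ≠ 0 := by
    intro h
    apply hxy
    rw [hxps, hyps, h]; simp
  have h1 : u + v + t • (y - x) = 0 := by
    have := congrArg Prod.fst heq
    simpa using this
  set h : E := (1 / 2 : ℝ) • (v - u) with hh
  have hyx : y - x = (2 : ℝ) • s := by rw [hs]; module
  have huv : u + v = -((2 * t) • s) := by
    rw [hyx] at h1
    have : u + v = -(t • (2 : ℝ) • s) := eq_neg_of_add_eq_zero_left h1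
    rw [this]; module
  have hu : u = -(t • s) - h := by
    have : u = (1 / 2 : ℝ) • (u + v) - (1 / 2 : ℝ) • (v - u) := by module
    rw [this, huv, hh]; module
  have hv : v = -(t • s) + h := by
    have : v = (1 / 2 : ℝ) • (u + v) + (1 / 2 : ℝ) • (v - u) := by module
    rw [this, huv, hh]; module
  have h2 := congrArg Prod.snd heq
  simp only [Prod.snd_add, Prod.smul_snd, Prod.snd_sub, Prod.snd_zero] at h2
  rw [hxps, hyps, hu, hv] at h2
  rw [germ_identity B Q A hB hQ p s h t] at h2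
  have h3 : B s h - (t * Q s s) • A s + ((Q p s) • A h + (Q s h) • A p + (Q p h) • A s) = 0 := by
    rcases smul_eq_zero.1 h2 with h | h
    · norm_num at h
    · exact h
  have h4 : B s h - (t * Q s s) • A s = -((Q p s) • A h + (Q s h) • A p + (Q p h) • A s) :=
    eq_neg_of_add_eq_zero_left h3
  have hpn : ‖p‖ < m / c := by
    have hx' : ‖x‖ < m / c := by simpa using hx
    have hy' : ‖y‖ < m / c := by simpa using hy
    calc ‖p‖ = (1 / 2) * ‖x + y‖ := by rw [hp, norm_smul]; norm_num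
      _ ≤ (1 / 2) * (‖x‖ + ‖y‖) := by
        apply mul_le_mul_of_nonneg_left (norm_add_le _ _); norm_num
      _ < m / c := by linarith
  have hb := hbound s h (t * Q s s)
  rw [h4, norm_neg] at hb
  have hterm : ∀ a b d : E, ‖(Q a b) • A d‖ ≤ ‖Q‖ * ‖A‖ * (‖a‖ * ‖b‖ * ‖d‖) := by
    intro a b d
    rw [norm_smul]
    calc ‖Q a b‖ * ‖A d‖ ≤ (‖Q‖ * ‖a‖ * ‖b‖) * (‖A‖ * ‖d‖) := by
          apply mul_le_mul (Q.le_opNorm₂ a b) (A.le_opNorm d) (norm_nonneg _) (by positivity)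
      _ = ‖Q‖ * ‖A‖ * (‖a‖ * ‖b‖ * ‖d‖) := by ring
  have hsum : ‖(Q p s) • A h + (Q s h) • A p + (Q p h) • A s‖
      ≤ 3 * ‖Q‖ * ‖A‖ * ‖p‖ * (‖s‖ * ‖h‖) := by
    calc ‖(Q p s) • A h + (Q s h) • A p + (Q p h) • A s‖
        ≤ ‖(Q p s) • A h‖ + ‖(Q s h) • A p‖ + ‖(Q p h) • A s‖ := norm_add₃_le
      _ ≤ ‖Q‖ * ‖A‖ * (‖p‖ * ‖s‖ * ‖h‖) + ‖Q‖ * ‖A‖ * (‖s‖ * ‖h‖ * ‖p‖)
          + ‖Q‖ * ‖A‖ * (‖p‖ * ‖h‖ * ‖s‖) := by
          gcongr <;> apply hterm
      _ = 3 * ‖Q‖ * ‖A‖ * ‖p‖ * (‖s‖ * ‖h‖) := by ring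
  have hspos : 0 < ‖s‖ := norm_pos_iff.2 hs0
  have hle : m * ‖(h, t * Q s s)‖ ≤ 3 * ‖Q‖ * ‖A‖ * ‖p‖ * ‖h‖ := by
    have : ‖s‖ * (m * ‖(h, t * Q s s)‖) ≤ ‖s‖ * (3 * ‖Q‖ * ‖A‖ * ‖p‖ * ‖h‖) := by
      calc ‖s‖ * (m * ‖(h, t * Q s s)‖) = m * (‖s‖ * ‖(h, t * Q s s)‖) := by ring
        _ ≤ _ := hb
        _ ≤ _ := hsum
        _ = _ := by ring
    exact le_of_mul_le_mul_left this hspos
  have hhle : ‖h‖ ≤ ‖(h, t * Q s s)‖ := norm_fst_le (h, t * Q s s)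
  have hcp : 3 * ‖Q‖ * ‖A‖ * ‖p‖ < m := by
    have h5 : c * ‖p‖ < m := by
      have := (lt_div_iff₀ hcpos).1 hpn
      linarith
    have h6 : 3 * ‖Q‖ * ‖A‖ * ‖p‖ ≤ c * ‖p‖ := by
      apply mul_le_mul_of_nonneg_right _ (norm_nonneg _)
      rw [hc]; linarith
    linarith
  have hzero : ‖(h, t * Q s s)‖ = 0 := by
    by_contra hne
    have hpos : 0 < ‖(h, t * Q s s)‖ := lt_of_le_of_ne (norm_nonneg _) (Ne.symm hne)
    have h7 : 3 * ‖Q‖ * ‖A‖ * ‖p‖ * ‖h‖ ≤ 3 * ‖Q‖ * ‖A‖ * ‖p‖ * ‖(h, t * Q s s)‖ :=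
      mul_le_mul_of_nonneg_left hhle (by positivity)
    have h8 : 3 * ‖Q‖ * ‖A‖ * ‖p‖ * ‖(h, t * Q s s)‖ < m * ‖(h, t * Q s s)‖ :=
      mul_lt_mul_of_pos_right hcp hpos
    linarith
  have hz := norm_eq_zero.1 hzero
  have hh0 : h = 0 := congrArg Prod.fst hz
  have ht0 : t = 0 := by
    have : t * Q s s = 0 := congrArg Prod.snd hz
    rcases mul_eq_zero.1 this with h | h
    · exact h
    · exact absurd h (hQpos s hs0)
  refine ⟨?_, ?_, ht0⟩
  · rw [hu, hh0, ht0]; simp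
  · rw [hv, hh0, ht0]; simp

end

end Pool.Agent.H73R3
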