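import Mathlib
import Pool.Agent.H73R3.Alg
import Pool.Agent.H73R3.Local

set_option autoImplicit false

namespace Pool.Agent.H73R3

open Complex ComplexConjugate Metric Set

abbrev E6 := EuclideanSpace ℝ (Fin 6)

/-- complex coordinates on `ℝ^6` -/
noncomputable def cz (i j : Fin 6) : E6 →ₗ[ℝ] ℂ where
  toFun x := ⟨x i, x j⟩
  map_add' x y := by apply Complex.ext <;> simp
  map_smul' a x := by apply Complex.ext <;> simp

abbrev F11 := ℂ × ℂ × ℂ × ℂ × ℂ × ℝ

noncomputable def B6 : E6 →ₗ[ℝ] E6 →ₗ[ℝ] F11 :=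
  LinearMap.mk₂ ℝ (fun x y =>
    (cz 0 1 x * cz 0 1 y,
      cz 0 1 x * cz 2 3 y + cz 2 3 x * cz 0 1 y,
      cz 2 3 x * cz 2 3 y + (conj (cz 0 1 x) * cz 4 5 y + cz 4 5 x * conj (cz 0 1 y)),
      conj (cz 2 3 x) * cz 4 5 y + cz 4 5 x * conj (cz 2 3 y),
      cz 4 5 x * cz 4 5 y, (0 : ℝ)))
    (by intro x x' y; simp only [map_add, Prod.mk_add_mk, Prod.mk.injEq]
        refine ⟨?_, ?_, ?_, ?_, ?_, ?_⟩ <;> ring)
    (by intro a x y; simp only [map_smul, Prod.smul_mk, Prod.mk.injEq, Complex.real_smul, map_mul,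
          Complex.conj_ofReal, smul_zero, and_true]
        refine ⟨?_, ?_, ?_, ?_, ?_⟩ <;> ring)
    (by intro x y y'; simp only [map_add, Prod.mk_add_mk, Prod.mk.injEq]
        refine ⟨?_, ?_, ?_, ?_, ?_, ?_⟩ <;> ring)
    (by intro a x y; simp only [map_smul, Prod.smul_mk, Prod.mk.injEq, Complex.real_smul, map_mul,
          Complex.conj_ofReal, smul_zero, and_true]
        refine ⟨?_, ?_, ?_, ?_, ?_⟩ <;> ring)

noncomputable def A6 : E6 →ₗ[ℝ] F11 where
  toFun x := (I * conj (cz 2 3 x), -(cz 4 5 x), 0, conj (cz 0 1 x), 0, (cz 0 1 x).im)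
  map_add' x y := by
    simp only [map_add, Prod.mk_add_mk, Prod.mk.injEq, Complex.add_im, add_zero, and_true]
    refine ⟨?_, ?_⟩ <;> ring
  map_smul' a x := by
    simp only [map_smul, Prod.smul_mk, Prod.mk.injEq, Complex.real_smul, map_mul,
      Complex.conj_ofReal, smul_zero, and_true, RingHom.id_apply, smul_eq_mul,
      Complex.im_ofReal_mul]
    refine ⟨?_, ?_⟩ <;> ring

theorem B6_symm (x y : E6) : B6 x y = B6 y x := by
  simp only [B6, LinearMap.mk₂_apply, Prod.mk.injEq, and_true]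
  refine ⟨?_, ?_, ?_, ?_, ?_⟩ <;> ring

theorem nonsing6 (s h : E6) (t : ℝ) (hs : s ≠ 0) (heq : B6 s h = t • A6 s) :
    h = 0 ∧ t = 0 := by
  simp only [B6, LinearMap.mk₂_apply, A6, LinearMap.coe_mk, AddHom.coe_mk, Prod.smul_mk,
    Prod.mk.injEq, Complex.real_smul, smul_zero, smul_eq_mul] at heq
  obtain ⟨h0, h1, h2, h3, h4, h5⟩ := heq
  have hx : ¬ (cz 0 1 s = 0 ∧ cz 2 3 s = 0 ∧ cz 4 5 s = 0) := by
    rintro ⟨a0, a1, a2⟩
    apply hs
    ext i
    have b0 := congrArg Complex.re a0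
    have b1 := congrArg Complex.im a0
    have b2 := congrArg Complex.re a1
    have b3 := congrArg Complex.im a1
    have b4 := congrArg Complex.re a2
    have b5 := congrArg Complex.im a2
    simp only [cz, LinearMap.coe_mk, AddHom.coe_mk, Complex.zero_re, Complex.zero_im] at b0 b1 b2 b3 b4 b5
    fin_cases i
    · exact b0
    · exact b1
    · exact b2
    · exact b3
    · exact b4
    · exact b5
  have := alg_core (cz 0 1 s) (cz 2 3 s) (cz 4 5 s) (cz 0 1 h) (cz 2 3 h) (cz 4 5 h) t hx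
    h0 (by rw [h1]; ring) h2 h3 h4 h5.symm
  obtain ⟨a0, a1, a2, ht⟩ := this
  refine ⟨?_, ht⟩
  ext i
  have b0 := congrArg Complex.re a0
  have b1 := congrArg Complex.im a0
  have b2 := congrArg Complex.re a1
  have b3 := congrArg Complex.im a1
  have b4 := congrArg Complex.re a2
  have b5 := congrArg Complex.im a2
  simp only [cz, LinearMap.coe_mk, AddHom.coe_mk, Complex.zero_re, Complex.zero_im] at b0 b1 b2 b3 b4 b5
  fin_cases i
  · exact b0
  · exact b1
  · exact b2
  · exact b3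
  · exact b4
  · exact b5

/-- A totally skew embedding of `ℝ^k` in `ℝ^N`. -/
def TSE (k N : ℕ) : Prop :=
  ∃ f : EuclideanSpace ℝ (Fin k) → EuclideanSpace ℝ (Fin N),
    ContDiff ℝ ((⊤ : ℕ∞) : WithTop ℕ∞) f ∧ Topology.IsEmbedding f ∧
    ∀ x y, x ≠ y → ∀ (u v : EuclideanSpace ℝ (Fin k)) (t : ℝ),
      fderiv ℝ f x u + fderiv ℝ f y v + t • (f y - f x) = 0 → u = 0 ∧ v = 0 ∧ t = 0

theorem finrank17 : Module.finrank ℝ (E6 × F11) = Module.finrank ℝ (EuclideanSpace ℝ (Fin 17)) := by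
  simp [Module.finrank_prod, Complex.finrank_real_complex]

theorem tse_6_17 : TSE 6 17 := by
  set Q : E6 →L[ℝ] E6 →L[ℝ] ℝ := innerSL ℝ with hQ
  obtain ⟨r, hr, hTS⟩ := exists_ball_TSOn (E := E6) (F := F11)
    B6.toContinuousBilinearMap Q (LinearMap.toContinuousLinearMap A6)
    (fun x y => B6_symm x y) (fun x y => by
      change inner ℝ x y = inner ℝ y x
      exact real_inner_comm _ _)
    (fun x hx => by
      change inner ℝ x x ≠ 0
      exact inner_self_ne_zero.2 hx)
    (fun s h t hs heq => nonsing6 s h t hs heq)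
  set G := germ B6.toContinuousBilinearMap Q (LinearMap.toContinuousLinearMap A6) with hG
  let e : (E6 × F11) ≃L[ℝ] EuclideanSpace ℝ (Fin 17) := ContinuousLinearEquiv.ofFinrankEq finrank17
  let σ : OpenPartialHomeomorph E6 E6 := OpenPartialHomeomorph.univBall 0 r
  have hσs : σ.source = univ := OpenPartialHomeomorph.univBall_source 0 r
  have hσt : σ.target = ball 0 r := OpenPartialHomeomorph.univBall_target 0 hr
  have hσc : ContDiff ℝ ((⊤ : ℕ∞) : WithTop ℕ∞) σ := OpenPartialHomeomorph.contDiff_univBall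
  have hσc' : ContDiffOn ℝ ((⊤ : ℕ∞) : WithTop ℕ∞) σ.symm (ball 0 r) :=
    OpenPartialHomeomorph.contDiffOn_univBall_symm
  have hGc : ContDiff ℝ ((⊤ : ℕ∞) : WithTop ℕ∞) G := germ_contDiff _ _ _
  have hmem : ∀ x, σ x ∈ ball (0 : E6) r := fun x => by
    rw [← hσt]; exact σ.map_source (by rw [hσs]; trivial)
  have hinj : Function.Injective σ := by
    intro x y hxy
    exact σ.injOn (by rw [hσs]; trivial) (by rw [hσs]; trivial) hxy
  have hσd : ∀ x, DifferentiableAt ℝ σ x := fun x =>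
    (hσc.differentiable (by simp)) x
  have hσker : ∀ x u, fderiv ℝ σ x u = 0 → u = 0 := by
    intro x u hu
    have hs : DifferentiableAt ℝ σ.symm (σ x) :=
      ((hσc'.contDiffAt (isOpen_ball.mem_nhds (hmem x))).differentiableAt (by simp))
    have hcomp : (σ.symm ∘ σ) = id := by
      funext y
      exact σ.left_inv (by rw [hσs]; trivial)
    have h1 : fderiv ℝ (σ.symm ∘ σ) x = (fderiv ℝ σ.symm (σ x)).comp (fderiv ℝ σ x) :=
      fderiv_comp x hs (hσd x)
    rw [hcomp, fderiv_id] at h1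
    have h2 := congrArg (fun L => L u) h1
    simp only [ContinuousLinearMap.comp_apply, hu, map_zero] at h2
    simpa using h2
  have hGd : ∀ x, DifferentiableAt ℝ G x := fun x => (hGc.differentiable (by simp)) x
  refine ⟨fun x => e (G (σ x)), ?_, ?_, ?_⟩
  · exact e.contDiff.comp (hGc.comp hσc)
  · have h1 : Topology.IsEmbedding σ := (σ.isOpenEmbedding hσs).isEmbedding
    have h2 : Topology.IsEmbedding G := by
      apply Topology.IsEmbedding.of_comp hGc.continuous continuous_fst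
      have : (Prod.fst ∘ G) = id := by funext x; rfl
      rw [this]; exact Topology.IsEmbedding.id
    exact e.toHomeomorph.isEmbedding.comp (h2.comp h1)
  · intro x y hxy u v t heq
    have hfd : ∀ z w, fderiv ℝ (fun x => e (G (σ x))) z w
        = e (fderiv ℝ G (σ z) (fderiv ℝ σ z w)) := by
      intro z w
      have h1 : HasFDerivAt (fun x => e (G (σ x)))
          ((e : (E6 × F11) →L[ℝ] _).comp ((fderiv ℝ G (σ z)).comp (fderiv ℝ σ z))) z := by
        exact e.hasFDerivAt.comp z ((hGd (σ z)).hasFDerivAt.comp z (hσd z).hasFDerivAt)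
      rw [h1.fderiv]; rfl
    rw [hfd, hfd, ← map_sub, ← map_smul, ← map_add, ← map_add] at heq
    have h0 := e.injective (heq.trans (map_zero e).symm)
    have := hTS (σ x) (hmem x) (σ y) (hmem y) (fun h => hxy (hinj h)) _ _ t h0
    exact ⟨hσker _ _ this.1, hσker _ _ this.2.1, this.2.2⟩

end Pool.Agent.H73R3
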