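import Mathlib

set_option autoImplicit false

namespace Pool.Agent.H73R3

open Set

/-- Compactness of the convex hull of a compact set (after Helper150.Cb.CompactHull of the
starting files). -/
theorem compact_hull {E : Type*} [NormedAddCommGroup E] [NormedSpace ℝ E]
    [FiniteDimensional ℝ E] {s : Set E} (hs : IsCompact s) : IsCompact (convexHull ℝ s) := by
  classical
  rcases s.eq_empty_or_nonempty with rfl | ⟨x0, hx0⟩
  · rw [convexHull_empty]
    exact isCompact_empty
  obtain ⟨n, hn⟩ : ∃ n, n = Module.finrank ℝ E + 1 := ⟨_, rfl⟩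
  have hK : IsCompact ((stdSimplex ℝ (Fin n)) ×ˢ (Set.pi Set.univ (fun _ : Fin n => s))) :=
    (isCompact_stdSimplex ℝ (Fin n)).prod (isCompact_univ_pi fun _ => hs)
  have hcont : Continuous (fun p : (Fin n → ℝ) × (Fin n → E) => ∑ i, p.1 i • p.2 i) := by
    refine continuous_finsetSum _ fun i _ => ?_
    exact ((continuous_apply i).comp continuous_fst).smul ((continuous_apply i).comp continuous_snd)
  have heq : convexHull ℝ s = (fun p : (Fin n → ℝ) × (Fin n → E) => ∑ i, p.1 i • p.2 i) ''
      ((stdSimplex ℝ (Fin n)) ×ˢ (Set.pi Set.univ (fun _ : Fin n => s))) := by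
    apply Set.Subset.antisymm
    · intro x hx
      obtain ⟨ι, hι, z, w, hz, hai, hw0, hw1, hwz⟩ := eq_pos_convex_span_of_mem_convexHull hx
      have hcard : Fintype.card ι ≤ Fintype.card (Fin n) := by
        have h1 := hai.card_le_finrank_succ
        have h2 := Submodule.finrank_le (vectorSpan ℝ (Set.range z))
        rw [Fintype.card_fin, hn]
        omega
      obtain ⟨e⟩ := Function.Embedding.nonempty_of_card_le hcard
      refine ⟨(Function.extend e w 0, Function.extend e z (fun _ => x0)), ⟨⟨?_, ?_⟩, ?_⟩, ?_⟩
      · intro j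
        show (0 : ℝ) ≤ Function.extend e w 0 j
        by_cases hj : ∃ i, e i = j
        · obtain ⟨i, rfl⟩ := hj
          rw [e.injective.extend_apply]
          exact (hw0 i).le
        · rw [Function.extend_apply' _ _ _ hj]
          exact le_rfl
      · rw [← hw1]
        symm
        refine Fintype.sum_of_injective e e.injective _ _ ?_ ?_
        · intro j hj
          show Function.extend e w 0 j = 0
          rw [Function.extend_apply' _ _ _ hj]
          rfl
        · intro i
          show w i = Function.extend e w 0 (e i)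
          rw [e.injective.extend_apply]
      · intro j _
        by_cases hj : ∃ i, e i = j
        · obtain ⟨i, rfl⟩ := hj
          show Function.extend e z (fun _ => x0) (e i) ∈ s
          rw [e.injective.extend_apply]
          exact hz ⟨i, rfl⟩
        · show Function.extend e z (fun _ => x0) j ∈ s
          rw [Function.extend_apply' _ _ _ hj]
          exact hx0
      · rw [← hwz]
        symm
        refine Fintype.sum_of_injective e e.injective _ _ ?_ ?_
        · intro j hj
          show Function.extend e w 0 j • Function.extend e z (fun _ => x0) j = 0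
          rw [Function.extend_apply' w _ _ hj]
          simp
        · intro i
          show w i • z i = Function.extend e w 0 (e i) • Function.extend e z (fun _ => x0) (e i)
          rw [e.injective.extend_apply, e.injective.extend_apply]
    · rintro _ ⟨⟨w, z⟩, ⟨⟨hw0, hw1⟩, hz⟩, rfl⟩
      refine (convex_convexHull ℝ s).sum_mem (fun i _ => hw0 i) hw1 (fun i _ => ?_)
      exact subset_convexHull ℝ s (hz i (Set.mem_univ i))
  rw [heq]
  exact hK.image hcont

/-- Either a compact set has a supporting hyperplane touching it twice, or it is cone-large. -/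
theorem two_max {E : Type*} [NormedAddCommGroup E] [NormedSpace ℝ E] [FiniteDimensional ℝ E]
    (S : Set E) (hS : IsCompact S) (hne : ∃ a ∈ S, ∃ b ∈ S, a ≠ b)
    (hsmall : ∀ c : E, ∃ z : E, ∀ (s : ℝ), ∀ a ∈ S, z ≠ c + s • (a - c)) :
    ∃ l : E →L[ℝ] ℝ, l ≠ 0 ∧ ∃ a ∈ S, ∃ b ∈ S, a ≠ b ∧ l a = l b ∧ ∀ w ∈ S, l w ≤ l a := by
  obtain ⟨a0, ha0, b0, hb0, hab0⟩ := hne
  have hK := compact_hull hS
  have hKc := convex_convexHull ℝ S
  by_cases hint : (interior (convexHull ℝ S)).Nonempty
  · obtain ⟨c, hc⟩ := hint
    obtain ⟨z, hz⟩ := hsmall c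
    have hzc : z ≠ c := by
      have := hz 0 a0 ha0
      simpa using this
    have hzc' : z - c ≠ 0 := sub_ne_zero.2 hzc
    set φ : ℝ → E := fun s => c + s • (z - c) with hφ
    have hφc : Continuous φ := by fun_prop
    set T : Set ℝ := φ ⁻¹' (convexHull ℝ S) with hT
    have hTcl : IsClosed T := hK.isClosed.preimage hφc
    have hTb : Bornology.IsBounded T := by
      obtain ⟨R, hR⟩ := hK.isBounded.subset_closedBall c
      refine (Metric.isBounded_closedBall (x := (0 : ℝ)) (r := R / ‖z - c‖)).subset ?_
      intro s hs
      have h1 := hR hs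
      rw [Metric.mem_closedBall, dist_eq_norm] at h1
      simp only [hφ, add_sub_cancel_left, norm_smul] at h1
      rw [Metric.mem_closedBall, dist_zero_right]
      exact (le_div_iff₀ (norm_pos_iff.2 hzc')).2 h1
    have hTc : IsCompact T := Metric.isCompact_of_isClosed_isBounded hTcl hTb
    have h0T : (0 : ℝ) ∈ T := by
      show φ 0 ∈ convexHull ℝ S
      simp only [hφ, zero_smul, add_zero]
      exact interior_subset hc
    obtain ⟨s1, hs1, hmax⟩ := hTc.exists_isMaxOn ⟨0, h0T⟩ continuousOn_id
    have hs1max : ∀ s ∈ T, s ≤ s1 := fun s hs => hmax hs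
    set z1 := φ s1 with hz1
    have hz1K : z1 ∈ convexHull ℝ S := hs1
    have hz1int : z1 ∉ interior (convexHull ℝ S) := by
      intro hin
      have hopen : IsOpen (φ ⁻¹' interior (convexHull ℝ S)) := isOpen_interior.preimage hφc
      obtain ⟨ε, hε, hball⟩ := Metric.isOpen_iff.1 hopen s1 hin
      have : s1 + ε / 2 ∈ T := by
        have : s1 + ε / 2 ∈ φ ⁻¹' interior (convexHull ℝ S) := by
          apply hball
          rw [Metric.mem_ball, Real.dist_eq]
          have : |s1 + ε / 2 - s1| = ε / 2 := by
            rw [add_sub_cancel_left, abs_of_pos]; positivity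
          rw [this]; linarith
        have h9 : φ (s1 + ε / 2) ∈ interior (convexHull ℝ S) := this
        have h10 : φ (s1 + ε / 2) ∈ convexHull ℝ S := interior_subset h9
        exact h10
      have := hs1max _ this
      linarith
    obtain ⟨f, hf⟩ := geometric_hahn_banach_open_point hKc.interior isOpen_interior hz1int
    have hfne : f ≠ 0 := by
      intro h
      have := hf c hc
      rw [h] at this
      simp at this
    have hfle : ∀ w ∈ convexHull ℝ S, f w ≤ f z1 := by
      intro w hw
      have hcl : w ∈ closure (interior (convexHull ℝ S)) := by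
        rw [hKc.closure_interior_eq_closure_of_nonempty_interior ⟨c, hc⟩]
        exact subset_closure hw
      have hclosed : IsClosed {w | f w ≤ f z1} := isClosed_le f.continuous continuous_const
      exact closure_minimal (fun a ha => (hf a ha).le) hclosed hcl
    obtain ⟨ι, hι, zz, w, hzz, _, hw0, hw1, hwz⟩ := eq_pos_convex_span_of_mem_convexHull hz1K
    have hfz : ∀ i, f (zz i) = f z1 := by
      have hle : ∀ i, f (zz i) ≤ f z1 := fun i =>
        hfle _ (subset_convexHull ℝ S (hzz ⟨i, rfl⟩))
      have hsum : ∑ i, w i * (f z1 - f (zz i)) = 0 := by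
        have h1 : ∑ i, w i * f (zz i) = f z1 := by
          rw [← hwz, map_sum]
          simp [map_smul]
        simp only [mul_sub, Finset.sum_sub_distrib, h1, ← Finset.sum_mul, hw1, one_mul, sub_self]
      have hnn : ∀ i ∈ Finset.univ, 0 ≤ w i * (f z1 - f (zz i)) := fun i _ =>
        mul_nonneg (hw0 i).le (sub_nonneg.2 (hle i))
      intro i
      have := (Finset.sum_eq_zero_iff_of_nonneg hnn).1 hsum i (Finset.mem_univ i)
      rcases mul_eq_zero.1 this with h | h
      · exact absurd h (hw0 i).ne'
      · linarith
    have hz1S : z1 ∉ S := by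
      intro hin
      have hs10 : s1 ≠ 0 := by
        intro h
        apply hz1int
        rw [hz1, h]
        simpa [hφ] using hc
      apply hz s1⁻¹ z1 hin
      rw [hz1]
      simp only [hφ, add_sub_cancel_left, smul_smul, inv_mul_cancel₀ hs10, one_smul]
      abel
    have hex : ∃ i j, zz i ≠ zz j := by
      by_contra hall
      push Not at hall
      have hnon : Nonempty ι := by
        by_contra hemp
        rw [not_nonempty_iff] at hemp
        simp at hw1
      obtain ⟨i0⟩ := hnon
      apply hz1S
      have : z1 = zz i0 := by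
        rw [← hwz]
        have : ∀ i, w i • zz i = w i • zz i0 := fun i => by rw [hall i i0]
        rw [Finset.sum_congr rfl (fun i _ => this i), ← Finset.sum_smul, hw1, one_smul]
      rw [this]
      exact hzz ⟨i0, rfl⟩
    obtain ⟨i, j, hij⟩ := hex
    refine ⟨f, hfne, zz i, hzz ⟨i, rfl⟩, zz j, hzz ⟨j, rfl⟩, hij, ?_, ?_⟩
    · rw [hfz, hfz]
    · intro w hw
      rw [hfz]
      exact hfle w (subset_convexHull ℝ S hw)
  · have hspan : affineSpan ℝ S ≠ ⊤ := by
      intro h
      exact hint (interior_convexHull_nonempty_iff_affineSpan_eq_top.2 h)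
    have hdir : (affineSpan ℝ S).direction ≠ ⊤ := by
      intro h
      apply hspan
      exact (AffineSubspace.direction_eq_top_iff_of_nonempty
        ⟨a0, subset_affineSpan ℝ S ha0⟩).1 h
    obtain ⟨f, hf, hker⟩ := Submodule.exists_le_ker_of_lt_top _ (lt_top_iff_ne_top.2 hdir)
    have hconst : ∀ w ∈ S, f w = f a0 := by
      intro w hw
      have : w - a0 ∈ (affineSpan ℝ S).direction := by
        have := AffineSubspace.vsub_mem_direction (subset_affineSpan ℝ S hw)
          (subset_affineSpan ℝ S ha0)
        simpa using this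
      have h1 := hker this
      rw [LinearMap.mem_ker, map_sub] at h1
      linarith
    refine ⟨LinearMap.toContinuousLinearMap f, ?_, a0, ha0, b0, hb0, hab0, ?_, ?_⟩
    · intro h
      apply hf
      ext x
      have := congrArg (fun g : E →L[ℝ] ℝ => g x) h
      simpa using this
    · simp [hconst b0 hb0]
    · intro w hw
      simp [hconst w hw]

end Pool.Agent.H73R3
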