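import Mathlib
import Pool.Agent.H73R3.Hull
import Pool.Agent.H73R3.Germ6

set_option autoImplicit false

open scoped Manifold

namespace Pool.Agent.H73R3

open Metric Set

abbrev E (n : ℕ) := EuclideanSpace ℝ (Fin n)

/-- the unit circle as a manifold -/
abbrev S1 := sphere (0 : EuclideanSpace ℝ (Fin (1 + 1))) 1

/-- total skewness in charts -/
def TSChart {EE H M : Type} [NormedAddCommGroup EE] [NormedSpace ℝ EE] [TopologicalSpace H]
    (I : ModelWithCorners ℝ EE H) [TopologicalSpace M] [ChartedSpace H M] {N : ℕ}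
    (f : M → E N) : Prop :=
  ∀ p q : M, p ≠ q → ∀ (u v : EE) (t : ℝ),
    fderiv ℝ (f ∘ (extChartAt I p).symm) (extChartAt I p p) u
      + fderiv ℝ (f ∘ (extChartAt I q).symm) (extChartAt I q q) v
      + t • (f q - f p) = 0 → u = 0 ∧ v = 0 ∧ t = 0

/-- three independent vectors: dimension count -/
theorem three_le {EE : Type} [NormedAddCommGroup EE] [NormedSpace ℝ EE] [FiniteDimensional ℝ EE]
    (hEE : Module.finrank ℝ EE = 1)
    {N : ℕ} (L1 L2 : EE →L[ℝ] E N) (w : E N)
    (h : ∀ (u v : EE) (t : ℝ), L1 u + L2 v + t • w = 0 → u = 0 ∧ v = 0 ∧ t = 0) : 3 ≤ N := by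
  let L : (EE × EE × ℝ) →ₗ[ℝ] E N :=
    { toFun := fun x => L1 x.1 + L2 x.2.1 + x.2.2 • w
      map_add' := by
        intro x y
        simp only [Prod.fst_add, Prod.snd_add, map_add, add_smul]
        abel
      map_smul' := by
        intro a x
        simp only [Prod.smul_fst, Prod.smul_snd, map_smul, smul_eq_mul, RingHom.id_apply, smul_add,
          smul_smul] }
  have hinj : Function.Injective L := by
    rw [← LinearMap.ker_eq_bot, LinearMap.ker_eq_bot']
    intro x hx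
    have := h x.1 x.2.1 x.2.2 hx
    exact Prod.ext this.1 (Prod.ext this.2.1 this.2.2)
  have := LinearMap.finrank_le_finrank_of_injective hinj
  simp [Module.finrank_prod, hEE] at this
  omega

/-- in dimension exactly three the three vectors span -/
theorem no_functional {EE : Type} [NormedAddCommGroup EE] [NormedSpace ℝ EE]
    [FiniteDimensional ℝ EE] (hEE : Module.finrank ℝ EE = 1)
    (L1 L2 : EE →L[ℝ] E 3) (w : E 3)
    (h : ∀ (u v : EE) (t : ℝ), L1 u + L2 v + t • w = 0 → u = 0 ∧ v = 0 ∧ t = 0)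
    (l : E 3 →L[ℝ] ℝ) (h1 : ∀ u, l (L1 u) = 0) (h2 : ∀ u, l (L2 u) = 0) (h3 : l w = 0) : l = 0 := by
  let L : (EE × EE × ℝ) →ₗ[ℝ] E 3 :=
    { toFun := fun x => L1 x.1 + L2 x.2.1 + x.2.2 • w
      map_add' := by
        intro x y
        simp only [Prod.fst_add, Prod.snd_add, map_add, add_smul]
        abel
      map_smul' := by
        intro a x
        simp only [Prod.smul_fst, Prod.smul_snd, map_smul, smul_eq_mul, RingHom.id_apply, smul_add,
          smul_smul] }
  have hinj : Function.Injective L := by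
    rw [← LinearMap.ker_eq_bot, LinearMap.ker_eq_bot']
    intro x hx
    have := h x.1 x.2.1 x.2.2 hx
    exact Prod.ext this.1 (Prod.ext this.2.1 this.2.2)
  have hfr : Module.finrank ℝ (EE × EE × ℝ) = Module.finrank ℝ (E 3) := by
    simp [Module.finrank_prod, hEE]
  have hsurj : Function.Surjective L :=
    (LinearMap.injective_iff_surjective_of_finrank_eq_finrank hfr).1 hinj
  ext x
  obtain ⟨y, rfl⟩ := hsurj x
  show l (L1 y.1 + L2 y.2.1 + y.2.2 • w) = 0
  rw [map_add, map_add, map_smul, h1, h2, h3]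
  simp

/-- angle parametrisation of the circle -/
noncomputable def ang (θ : ℝ) : E (1 + 1) := !₂[Real.cos θ, Real.sin θ]

theorem ang_mem (θ : ℝ) : ang θ ∈ S1 := by
  rw [mem_sphere_zero_iff_norm, EuclideanSpace.norm_eq]
  simp [ang, Fin.sum_univ_two]

theorem ang_contDiff : ContDiff ℝ ((⊤ : ℕ∞) : WithTop ℕ∞) ang := by
  rw [contDiff_euclidean]
  intro i
  fin_cases i
  · exact Real.contDiff_cos
  · exact Real.contDiff_sin

noncomputable def angS (θ : ℝ) : S1 := ⟨ang θ, ang_mem θ⟩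

theorem angS_contMDiff : ContMDiff 𝓘(ℝ, ℝ) (𝓡 1) ((⊤ : ℕ∞) : WithTop ℕ∞) angS := by
  have h : ContMDiff 𝓘(ℝ, ℝ) 𝓘(ℝ, E (1 + 1)) ((⊤ : ℕ∞) : WithTop ℕ∞) ang :=
    ang_contDiff.contMDiff
  have := Fact.mk (@finrank_euclideanSpace_fin ℝ _ (1 + 1))
  exact h.codRestrict_sphere (fun θ => ang_mem θ)

theorem angS_surj : Function.Surjective angS := by
  intro z
  have hz : (z : E (1 + 1)) ∈ S1 := z.2
  rw [mem_sphere_zero_iff_norm, EuclideanSpace.norm_eq, Real.sqrt_eq_one] at hz
  simp only [Real.norm_eq_abs, sq_abs] at hz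
  have hz' : (z : E (1 + 1)) 0 ^ 2 + (z : E (1 + 1)) 1 ^ 2 = 1 := by
    rw [← hz]
    exact (Fin.sum_univ_two (fun i => (z : E (1 + 1)) i ^ 2)).symm
  set w : ℂ := ⟨(z : E (1 + 1)) 0, (z : E (1 + 1)) 1⟩ with hw
  have hw1 : ‖w‖ = 1 := by
    rw [Complex.norm_def, Complex.normSq_apply]
    simp only [hw]
    rw [show (z : E (1 + 1)) 0 * (z : E (1 + 1)) 0 + (z : E (1 + 1)) 1 * (z : E (1 + 1)) 1
      = (z : E (1 + 1)) 0 ^ 2 + (z : E (1 + 1)) 1 ^ 2 by ring]
    rw [hz']; simp
  have hw0 : w ≠ 0 := by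
    intro h; rw [h] at hw1; simp at hw1
  refine ⟨Complex.arg w, ?_⟩
  apply Subtype.ext
  ext i
  fin_cases i
  · show Real.cos (Complex.arg w) = (z : E (1 + 1)) 0
    rw [Complex.cos_arg hw0, hw1]; simp [hw]
  · show Real.sin (Complex.arg w) = (z : E (1 + 1)) 1
    rw [Complex.sin_arg, hw1]; simp [hw]

/-- A totally skew embedded circle needs dimension at least four. -/
theorem circle_ge_four {a : ℕ} (g : S1 → E a)
    (hg : ContMDiff (𝓡 1) (𝓡 a) ((⊤ : ℕ∞) : WithTop ℕ∞) g) (hginj : Function.Injective g)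
    (hTS : TSChart (𝓡 1) g) : 4 ≤ a := by
  have hrank : Module.finrank ℝ (EuclideanSpace ℝ (Fin 1)) = 1 := by simp
  have hxy : angS 0 ≠ angS (Real.pi / 2) := by
    intro h
    have h1 := congrArg (fun z : S1 => (z : E (1 + 1)) 0) h
    simp [angS, ang] at h1
  have h3 : 3 ≤ a := three_le hrank _ _ _ (hTS _ _ hxy)
  by_contra h4
  have ha : a = 3 := by omega
  subst ha
  -- the parametrised curve
  have hγ : ContDiff ℝ ((⊤ : ℕ∞) : WithTop ℕ∞) (g ∘ angS) := by
    rw [← contMDiff_iff_contDiff]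
    exact hg.comp angS_contMDiff
  have hcomp : IsCompact (range g) := isCompact_range hg.continuous
  obtain ⟨l, hl0, x', ⟨x, rfl⟩, y', ⟨y, rfl⟩, hne, hlxy, hmax⟩ := two_max (range g) hcomp
    ⟨g (angS 0), ⟨_, rfl⟩, g (angS (Real.pi / 2)), ⟨_, rfl⟩, fun h => hxy (hginj h)⟩
    (by
      intro c
      have hF : ContDiff ℝ 1 (fun w : ℝ × ℝ => c + w.1 • ((g ∘ angS) w.2 - c)) := by
        have h1 : ContDiff ℝ 1 (g ∘ angS) := hγ.of_le (by simp)
        exact contDiff_const.add (contDiff_fst.smul ((h1.comp contDiff_snd).sub contDiff_const))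
      have hd := hF.dense_compl_range_of_finrank_lt_finrank (by simp)
      obtain ⟨z, hz⟩ := hd.nonempty
      refine ⟨z, ?_⟩
      rintro s _ ⟨x, rfl⟩ h
      obtain ⟨θ, rfl⟩ := angS_surj x
      exact hz ⟨(s, θ), h.symm⟩)
  have hne' : x ≠ y := fun h => hne (by rw [h])
  have hder : ∀ p : S1, l (g p) = l (g x) → ∀ u,
      l (fderiv ℝ (g ∘ (extChartAt (𝓡 1) p).symm) (extChartAt (𝓡 1) p p) u) = 0 := by
    intro p hp u
    have hdiff : DifferentiableAt ℝ (g ∘ (extChartAt (𝓡 1) p).symm) (extChartAt (𝓡 1) p p) := by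
      have h1 : ContMDiffAt (𝓡 1) (𝓡 3) 1 g p := (hg p).of_le (by simp)
      have h2 := h1.mdifferentiableAt (by simp)
      have h3 := h2.differentiableWithinAt_writtenInExtChartAt
      simp only [writtenInExtChartAt, extChartAt_model_space_eq_id, PartialEquiv.refl_coe,
        ModelWithCorners.range_eq_univ, Function.id_comp, differentiableWithinAt_univ] at h3
      exact h3
    have hmaxL : IsLocalMax (fun w => l ((g ∘ (extChartAt (𝓡 1) p).symm) w))
        (extChartAt (𝓡 1) p p) := by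
      apply Filter.Eventually.of_forall
      intro w
      have hpp : (extChartAt (𝓡 1) p).symm (extChartAt (𝓡 1) p p) = p :=
        extChartAt_to_inv (I := 𝓡 1) p
      show l (g ((extChartAt (𝓡 1) p).symm w)) ≤ l (g ((extChartAt (𝓡 1) p).symm
        (extChartAt (𝓡 1) p p)))
      rw [hpp, hp]
      exact hmax _ ⟨_, rfl⟩
    have h0 := hmaxL.fderiv_eq_zero
    have hc : HasFDerivAt (fun w => l ((g ∘ (extChartAt (𝓡 1) p).symm) w))
        (l.comp (fderiv ℝ (g ∘ (extChartAt (𝓡 1) p).symm) (extChartAt (𝓡 1) p p)))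
        (extChartAt (𝓡 1) p p) := l.hasFDerivAt.comp _ hdiff.hasFDerivAt
    rw [hc.fderiv] at h0
    have := congrArg (fun L : EuclideanSpace ℝ (Fin 1) →L[ℝ] ℝ => L u) h0
    simpa using this
  apply hl0
  refine no_functional hrank _ _ _ (hTS x y hne') l (hder x rfl) (hder y hlxy.symm) ?_
  rw [map_sub, hlxy, sub_self]

end Pool.Agent.H73R3
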