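import Mathlib
import Pool.Agent.H73R3.Circle

set_option autoImplicit false

open scoped Manifold

namespace Pool.Agent.H73R3

open Metric Set

/-- `(z, y) ↦ (e^{y₀} z, y₁, …)` -/
noncomputable def Phi (k : ℕ) (w : E (1 + 1) × E (k + 1)) : E (k + 2) :=
  WithLp.toLp 2 (Fin.cons (Real.exp (w.2 0) * w.1 0)
    (Fin.cons (Real.exp (w.2 0) * w.1 1) (fun i => w.2 i.succ)))

noncomputable def qf {k : ℕ} (w : E (k + 2)) : ℝ := w 0 ^ 2 + w 1 ^ 2

noncomputable def Gi (k : ℕ) (w : E (k + 2)) : E (1 + 1) × E (k + 1) :=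
  (WithLp.toLp 2 ![w 0 * Real.exp (-(Real.log (qf w) / 2)), w 1 * Real.exp (-(Real.log (qf w) / 2))],
    WithLp.toLp 2 (Fin.cons (Real.log (qf w) / 2) (fun i => w i.succ.succ)))

theorem Phi_contDiff (k : ℕ) : ContDiff ℝ ((⊤ : ℕ∞) : WithTop ℕ∞) (Phi k) := by
  rw [contDiff_euclidean]
  intro i
  refine Fin.cases ?_ (fun i => Fin.cases ?_ (fun i => ?_) i) i
  · show ContDiff ℝ _ (fun w : E (1 + 1) × E (k + 1) => Real.exp (w.2 0) * w.1 0)
    fun_prop
  · show ContDiff ℝ _ (fun w : E (1 + 1) × E (k + 1) => Real.exp (w.2 0) * w.1 1)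
    fun_prop
  · show ContDiff ℝ _ (fun w : E (1 + 1) × E (k + 1) => w.2 i.succ)
    fun_prop

theorem qf_diff {k : ℕ} : Differentiable ℝ (qf : E (k + 2) → ℝ) := by
  unfold qf
  fun_prop

theorem Gi_diff (k : ℕ) (w : E (k + 2)) (hw : qf w ≠ 0) : DifferentiableAt ℝ (Gi k) w := by
  have hl : DifferentiableAt ℝ (fun w : E (k + 2) => Real.log (qf w) / 2) w := by
    have h1 : DifferentiableAt ℝ (fun w : E (k + 2) => Real.log (qf w)) w := (qf_diff w).log hw
    fun_prop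
  have he : DifferentiableAt ℝ (fun w : E (k + 2) => Real.exp (-(Real.log (qf w) / 2))) w :=
    hl.neg.exp
  apply DifferentiableAt.prodMk
  · rw [differentiableAt_euclidean]
    intro i
    fin_cases i
    · show DifferentiableAt ℝ (fun w : E (k + 2) => w 0 * Real.exp (-(Real.log (qf w) / 2))) w
      exact DifferentiableAt.mul (by fun_prop) he
    · show DifferentiableAt ℝ (fun w : E (k + 2) => w 1 * Real.exp (-(Real.log (qf w) / 2))) w
      exact DifferentiableAt.mul (by fun_prop) he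
  · rw [differentiableAt_euclidean]
    intro i
    refine Fin.cases ?_ (fun i => ?_) i
    · exact hl
    · show DifferentiableAt ℝ (fun w : E (k + 2) => w i.succ.succ) w
      fun_prop

theorem S1_sq (z : S1) : (z : E (1 + 1)) 0 ^ 2 + (z : E (1 + 1)) 1 ^ 2 = 1 := by
  have hz : (z : E (1 + 1)) ∈ S1 := z.2
  rw [mem_sphere_zero_iff_norm, EuclideanSpace.norm_eq, Real.sqrt_eq_one] at hz
  simp only [Real.norm_eq_abs, sq_abs] at hz
  rw [← hz]
  exact (Fin.sum_univ_two (fun i => (z : E (1 + 1)) i ^ 2)).symm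

theorem qf_Phi (k : ℕ) (z : S1) (y : E (k + 1)) :
    qf (Phi k ((z : E (1 + 1)), y)) = Real.exp (y 0) ^ 2 := by
  have : qf (Phi k ((z : E (1 + 1)), y))
      = (Real.exp (y 0) * (z : E (1 + 1)) 0) ^ 2 + (Real.exp (y 0) * (z : E (1 + 1)) 1) ^ 2 := rfl
  rw [this]
  have h := S1_sq z
  calc (Real.exp (y 0) * (z : E (1 + 1)) 0) ^ 2 + (Real.exp (y 0) * (z : E (1 + 1)) 1) ^ 2
      = Real.exp (y 0) ^ 2 * ((z : E (1 + 1)) 0 ^ 2 + (z : E (1 + 1)) 1 ^ 2) := by ring
    _ = _ := by rw [h, mul_one]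

theorem Gi_Phi (k : ℕ) (z : S1) (y : E (k + 1)) :
    Gi k (Phi k ((z : E (1 + 1)), y)) = ((z : E (1 + 1)), y) := by
  have hlog : Real.log (qf (Phi k ((z : E (1 + 1)), y))) / 2 = y 0 := by
    rw [qf_Phi, Real.log_pow, Real.log_exp]
    push_cast
    ring
  have hexp : ∀ a : ℝ, Real.exp (y 0) * a * Real.exp (-(y 0)) = a := by
    intro a
    rw [mul_right_comm, ← Real.exp_add]
    simp
  unfold Gi
  rw [hlog]
  refine Prod.ext ?_ ?_
  · ext i
    fin_cases i
    · exact hexp _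
    · exact hexp _
  · ext i
    refine Fin.cases ?_ (fun i => ?_) i
    · rfl
    · rfl

/-- the submanifold map -/
noncomputable def phi (k : ℕ) (p : S1 × E (k + 1)) : E (k + 2) := Phi k ((p.1 : E (1 + 1)), p.2)

noncomputable def jj (k : ℕ) (p : S1 × E (k + 1)) : E (1 + 1) × E (k + 1) :=
  ((p.1 : E (1 + 1)), p.2)

theorem jj_contMDiff (k : ℕ) : ContMDiff ((𝓡 1).prod (𝓡 (k + 1)))
    𝓘(ℝ, E (1 + 1) × E (k + 1)) ((⊤ : ℕ∞) : WithTop ℕ∞) (jj k) := by
  have := Fact.mk (@finrank_euclideanSpace_fin ℝ _ (1 + 1))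
  apply ContMDiff.prodMk_space
  · exact contMDiff_coe_sphere.comp contMDiff_fst
  · exact contMDiff_snd

theorem phi_contMDiff (k : ℕ) : ContMDiff ((𝓡 1).prod (𝓡 (k + 1)))
    (𝓡 (k + 2)) ((⊤ : ℕ∞) : WithTop ℕ∞) (phi k) :=
  (Phi_contDiff k).contMDiff.comp (jj_contMDiff k)

theorem jj_emb (k : ℕ) : Topology.IsEmbedding (jj k) :=
  Topology.IsEmbedding.prodMap Topology.IsEmbedding.subtypeVal Topology.IsEmbedding.id

theorem Gi_phi (k : ℕ) : Gi k ∘ phi k = jj k := by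
  funext p
  exact Gi_Phi k p.1 p.2

theorem qf_phi_ne (k : ℕ) (p : S1 × E (k + 1)) : qf (phi k p) ≠ 0 := by
  have : qf (phi k p) = Real.exp (p.2 0) ^ 2 := qf_Phi k p.1 p.2
  rw [this]
  positivity

theorem phi_emb (k : ℕ) : Topology.IsEmbedding (phi k) := by
  have hc : Continuous (phi k) := (phi_contMDiff k).continuous
  refine ⟨Topology.isInducing_iff_nhds.2 ?_, ?_⟩
  · intro p
    apply le_antisymm
    · exact (hc.tendsto p).le_comap
    · have h1 : nhds p = Filter.comap (jj k) (nhds (jj k p)) :=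
        (jj_emb k).isInducing.nhds_eq_comap p
      rw [h1, ← Gi_phi k, ← Filter.comap_comap]
      apply Filter.comap_mono
      exact (Gi_diff k _ (qf_phi_ne k p)).continuousAt.tendsto.le_comap
  · intro p q hpq
    apply (jj_emb k).injective
    rw [← Gi_phi k]
    simp [hpq]

theorem mdiff_chart {EE H M : Type} [NormedAddCommGroup EE] [NormedSpace ℝ EE] [TopologicalSpace H]
    (I : ModelWithCorners ℝ EE H) [I.Boundaryless] [TopologicalSpace M] [ChartedSpace H M]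
    {F : Type} [NormedAddCommGroup F] [NormedSpace ℝ F] {f : M → F}
    (hf : ContMDiff I 𝓘(ℝ, F) ((⊤ : ℕ∞) : WithTop ℕ∞) f) (p : M) :
    DifferentiableAt ℝ (f ∘ (extChartAt I p).symm) (extChartAt I p p) := by
  have h1 : ContMDiffAt I 𝓘(ℝ, F) 1 f p := (hf p).of_le (by simp)
  have h2 := h1.mdifferentiableAt (by simp)
  have h3 := h2.differentiableWithinAt_writtenInExtChartAt
  simp only [writtenInExtChartAt, extChartAt_model_space_eq_id, PartialEquiv.refl_coe,
    ModelWithCorners.range_eq_univ, Function.id_comp, differentiableWithinAt_univ] at h3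
  exact h3

theorem coe_chart_inj (z : S1) (u : EuclideanSpace ℝ (Fin 1))
    (hu : fderiv ℝ ((fun z : S1 => (z : E (1 + 1))) ∘ (extChartAt (𝓡 1) z).symm)
      (extChartAt (𝓡 1) z z) u = 0) : u = 0 := by
  have := Fact.mk (@finrank_euclideanSpace_fin ℝ _ (1 + 1))
  have hinj := mfderiv_coe_sphere_injective (n := 1) (E := EuclideanSpace ℝ (Fin (1 + 1))) z
  have hd : MDifferentiableAt (𝓡 1) 𝓘(ℝ, E (1 + 1)) (fun z : S1 => (z : E (1 + 1))) z :=
    (contMDiff_coe_sphere (m := 1) z).mdifferentiableAt (by simp)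
  rw [hd.mfderiv] at hinj
  simp only [writtenInExtChartAt, extChartAt_model_space_eq_id, PartialEquiv.refl_coe,
    ModelWithCorners.range_eq_univ, Function.id_comp, fderivWithin_univ] at hinj
  have hinj' : Function.Injective (fun u : EuclideanSpace ℝ (Fin 1) =>
      (fderiv ℝ ((fun z : S1 => (z : E (1 + 1))) ∘ (extChartAt (𝓡 1) z).symm)
      (extChartAt (𝓡 1) z z) : EuclideanSpace ℝ (Fin 1) →L[ℝ] E (1 + 1)) u) := hinj
  apply hinj'
  show (fderiv ℝ ((fun z : S1 => (z : E (1 + 1))) ∘ (extChartAt (𝓡 1) z).symm)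
      (extChartAt (𝓡 1) z z) : EuclideanSpace ℝ (Fin 1) →L[ℝ] E (1 + 1)) u =
      (fderiv ℝ ((fun z : S1 => (z : E (1 + 1))) ∘ (extChartAt (𝓡 1) z).symm)
      (extChartAt (𝓡 1) z z) : EuclideanSpace ℝ (Fin 1) →L[ℝ] E (1 + 1)) 0
  rw [map_zero]
  exact hu

theorem phi_chart_inj (k : ℕ) (p : S1 × E (k + 1))
    (u : EuclideanSpace ℝ (Fin 1) × EuclideanSpace ℝ (Fin (k + 1)))
    (hu : fderiv ℝ (phi k ∘ (extChartAt ((𝓡 1).prod (𝓡 (k + 1))) p).symm)
      (extChartAt ((𝓡 1).prod (𝓡 (k + 1))) p p) u = 0) : u = 0 := by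
  set I := (𝓡 1).prod (𝓡 (k + 1)) with hI
  set a := extChartAt I p p with ha
  have hpp : (extChartAt I p).symm a = p := extChartAt_to_inv (I := I) p
  have hdphi : DifferentiableAt ℝ (phi k ∘ (extChartAt I p).symm) a :=
    mdiff_chart I (phi_contMDiff k) p
  have hG : DifferentiableAt ℝ (Gi k) ((phi k ∘ (extChartAt I p).symm) a) := by
    apply Gi_diff
    exact qf_phi_ne k _
  have h1 : fderiv ℝ (Gi k ∘ (phi k ∘ (extChartAt I p).symm)) a
      = (fderiv ℝ (Gi k) ((phi k ∘ (extChartAt I p).symm) a)).comp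
        (fderiv ℝ (phi k ∘ (extChartAt I p).symm) a) := fderiv_comp a hG hdphi
  rw [← Function.comp_assoc, Gi_phi k] at h1
  have h2 : fderiv ℝ (jj k ∘ (extChartAt I p).symm) a u = 0 := by
    rw [h1, ContinuousLinearMap.comp_apply, hu, map_zero]
  -- compute
  have hS : DifferentiableAt ℝ ((fun z : S1 => (z : E (1 + 1))) ∘ (extChartAt (𝓡 1) p.1).symm)
      (extChartAt (𝓡 1) p.1 p.1) := by
    have := Fact.mk (@finrank_euclideanSpace_fin ℝ _ (1 + 1))
    exact mdiff_chart (𝓡 1) contMDiff_coe_sphere p.1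
  have hfun : (jj k ∘ (extChartAt I p).symm) =
      fun w : EuclideanSpace ℝ (Fin 1) × EuclideanSpace ℝ (Fin (k + 1)) =>
        (((fun z : S1 => (z : E (1 + 1))) ∘ (extChartAt (𝓡 1) p.1).symm) w.1, w.2) := by
    funext w
    rw [hI, extChartAt_prod]
    rfl
  have haa : a = (extChartAt (𝓡 1) p.1 p.1, p.2) := by
    rw [ha, hI, extChartAt_prod]
    rfl
  rw [hfun, haa] at h2
  have hh : HasFDerivAt (fun w : EuclideanSpace ℝ (Fin 1) × EuclideanSpace ℝ (Fin (k + 1)) =>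
        (((fun z : S1 => (z : E (1 + 1))) ∘ (extChartAt (𝓡 1) p.1).symm) w.1, w.2))
      (((fderiv ℝ ((fun z : S1 => (z : E (1 + 1))) ∘ (extChartAt (𝓡 1) p.1).symm)
        (extChartAt (𝓡 1) p.1 p.1)).comp (ContinuousLinearMap.fst ℝ _ _)).prod
        (ContinuousLinearMap.snd ℝ _ _)) (extChartAt (𝓡 1) p.1 p.1, p.2) := by
    have hS' : HasFDerivAt ((fun z : S1 => (z : E (1 + 1))) ∘ (extChartAt (𝓡 1) p.1).symm)
        (fderiv ℝ ((fun z : S1 => (z : E (1 + 1))) ∘ (extChartAt (𝓡 1) p.1).symm)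
        (extChartAt (𝓡 1) p.1 p.1))
        (Prod.fst ((extChartAt (𝓡 1) p.1 p.1, p.2) :
          EuclideanSpace ℝ (Fin 1) × EuclideanSpace ℝ (Fin (k + 1)))) := hS.hasFDerivAt
    exact (hS'.comp _ hasFDerivAt_fst).prodMk hasFDerivAt_snd
  rw [hh.fderiv] at h2
  have h3 := congrArg Prod.fst h2
  have h4 := congrArg Prod.snd h2
  refine Prod.ext (coe_chart_inj p.1 u.1 ?_) ?_
  · exact h3
  · exact h4

/-- a totally skew `ℝ^{k+2}` in `ℝ^N` contains a totally skew `S¹ × ℝ^{k+1}` -/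
theorem prod_of_TSE (k N : ℕ) (h : TSE (k + 2) N) :
    ∃ F : S1 × E (k + 1) → E N,
      ContMDiff ((𝓡 1).prod (𝓡 (k + 1))) (𝓡 N) ((⊤ : ℕ∞) : WithTop ℕ∞) F ∧
      Topology.IsEmbedding F ∧ TSChart ((𝓡 1).prod (𝓡 (k + 1))) F := by
  obtain ⟨f, hf, hfe, hTS⟩ := h
  refine ⟨f ∘ phi k, hf.contMDiff.comp (phi_contMDiff k), hfe.comp (phi_emb k), ?_⟩
  intro p q hpq u v t heq
  set I := (𝓡 1).prod (𝓡 (k + 1)) with hI
  have hfd : ∀ (p : S1 × E (k + 1)) (u : EuclideanSpace ℝ (Fin 1) × EuclideanSpace ℝ (Fin (k + 1))),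
      fderiv ℝ ((f ∘ phi k) ∘ (extChartAt I p).symm) (extChartAt I p p) u
        = fderiv ℝ f (phi k p) (fderiv ℝ (phi k ∘ (extChartAt I p).symm) (extChartAt I p p) u) := by
    intro p u
    have hpp : (extChartAt I p).symm (extChartAt I p p) = p := extChartAt_to_inv (I := I) p
    have h1 : DifferentiableAt ℝ f ((phi k ∘ (extChartAt I p).symm) (extChartAt I p p)) :=
      (hf.differentiable (by simp)) _
    have h2 := fderiv_comp (extChartAt I p p) h1 (mdiff_chart I (phi_contMDiff k) p)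
    rw [Function.comp_assoc, h2, ContinuousLinearMap.comp_apply]
    simp only [Function.comp_apply, hpp]
  rw [hfd, hfd] at heq
  have := hTS (phi k p) (phi k q) (fun h => hpq ((phi_emb k).injective h)) _ _ t heq
  exact ⟨phi_chart_inj k p u this.1, phi_chart_inj k q v this.2.1, this.2.2⟩

end Pool.Agent.H73R3
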